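import Mathlib
import Pool.Agent.H27.KCut

set_option autoImplicit false

namespace Pool.Agent.Results.MP_1d7c98_co.MaxKCut

/-- `G` is `r`-connected: it has more than `r` vertices and stays connected after deleting any set of
fewer than `r` vertices. -/
def IsKConnected {V : Type} (G : SimpleGraph V) (r : ℕ) : Prop :=
  r < Nat.card V ∧ ∀ S : Set V, S.ncard < r → (G.induce Sᶜ).Connected

/-- number of edges of `G` joining two different classes of the partition `c` into `k` classes -/
noncomputable def cutSize {V : Type} (G : SimpleGraph V) {k : ℕ} (c : V → Fin k) : ℕ :=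
  {e ∈ G.edgeSet | ∃ u v, e = s(u, v) ∧ c u ≠ c v}.ncard

/-- For every `k ≥ 8` the Bollobás–Scott bound
`f_k(G) ≥ (k-1)/k m + (k-1)/(2k) n - C` fails for every constant `C`, for a suitable `(k-1)`-connected
finite graph `G`: every partition of the vertex set into `k` classes cuts fewer edges. -/
theorem result (k : ℕ) (hk : 8 ≤ k) (C : ℝ) :
    ∃ (V : Type) (_ : Fintype V) (G : SimpleGraph V), IsKConnected G (k - 1) ∧
      ∀ c : V → Fin k, (cutSize G c : ℝ) <
        ((k : ℝ) - 1) / k * G.edgeSet.ncard + ((k : ℝ) - 1) / (2 * k) * Fintype.card V - C := by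
  obtain ⟨N₀, hN₀⟩ := exists_nat_gt (2 * k * C)
  set N := N₀ + 1 with hN
  have hNC : 2 * k * C < N := by
    rw [hN]; push_cast; linarith
  refine ⟨Fin N × Fin (k + 3), inferInstance, H27.KCut.G N k, ⟨?_, ?_⟩, ?_⟩
  · rw [Nat.card_eq_fintype_card, Fintype.card_prod, Fintype.card_fin, Fintype.card_fin]
    have : k + 3 ≤ N * (k + 3) := Nat.le_mul_of_pos_left _ (by omega)
    omega
  · intro S hS
    exact H27.KCut.conn N k (by omega) S hS
  · intro c
    have h1 := H27.KCut.edges_le N k (by omega)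
    have h2 := H27.KCut.mono_ge N k c
    set M := {e ∈ (H27.KCut.G N k).edgeSet | ∃ u v, e = s(u, v) ∧ c u = c v} with hM
    set D := {e ∈ (H27.KCut.G N k).edgeSet | ∃ u v, e = s(u, v) ∧ c u ≠ c v} with hD
    have h3 : D.ncard + M.ncard ≤ (H27.KCut.G N k).edgeSet.ncard := by
      rw [← Set.ncard_union_eq _ (Set.toFinite _) (Set.toFinite _)]
      · apply Set.ncard_le_ncard _ (Set.toFinite _)
        rintro e (he | he)
        · exact he.1
        · exact he.1
      · rw [Set.disjoint_left]
        rintro e ⟨_, u, v, h4, h5⟩ ⟨_, u', v', h6, h7⟩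
        rw [h4, Sym2.eq_iff] at h6
        rcases h6 with ⟨rfl, rfl⟩ | ⟨rfl, rfl⟩
        · exact h5 h7
        · exact h5 h7.symm
    have h4 : (H27.KCut.G N k).edgeSet.ncard = (H27.KCut.G N k).edgeFinset.card := by
      rw [← SimpleGraph.coe_edgeFinset, Set.ncard_coe_finset]
    rw [← h4] at h1
    change (D.ncard : ℝ) < _
    set m := (H27.KCut.G N k).edgeSet.ncard with hm
    rw [Fintype.card_prod, Fintype.card_fin, Fintype.card_fin]
    have h5 : (D.ncard : ℝ) + 3 * N ≤ m := by
      have : D.ncard + 3 * N ≤ m := by omega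
      exact_mod_cast this
    have h6 : 2 * (m : ℝ) ≤ N * ((k + 3) * (k + 2) + 2 * ((k : ℝ) - 1)) := by
      have : ((2 * m : ℕ) : ℝ) ≤ ((N * ((k + 3) * (k + 2) + 2 * (k - 1)) : ℕ) : ℝ) := by exact_mod_cast h1
      push_cast [Nat.cast_sub (show 1 ≤ k by omega)] at this
      exact this
    have hk' : (8 : ℝ) ≤ k := by exact_mod_cast hk
    have hkpos : (0 : ℝ) < k := by linarith
    have hNpos : (0 : ℝ) < N := by rw [hN]; positivity
    have h7 : ((k : ℝ) - 1) / k * m + ((k : ℝ) - 1) / (2 * k) * ((N * (k + 3) : ℕ) : ℝ) - C = 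
        m + (-(2 * m) + ((k : ℝ) - 1) * (N * (k + 3)) - 2 * k * C) / (2 * k) := by
      push_cast
      field_simp
      ring
    rw [h7]
    have h8 : -(3 * (N : ℝ)) < (-(2 * m) + ((k : ℝ) - 1) * (N * (k + 3)) - 2 * k * C) / (2 * k) := by
      rw [lt_div_iff₀ (by positivity)]
      nlinarith
    linarith

end Pool.Agent.Results.MP_1d7c98_co.MaxKCut
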